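import Pool.Agent.MWL.Stmts

set_option autoImplicit false

namespace Pool.Agent.MWL.H3

open Pool.Agent.MVO Pool.Agent.Helper14_MV Pool.Agent.Helper2_MV Pool.Agent.MWL

theorem step (h1 : TrnStmt) (h3 : AbsStmt) (h4 : KeyStmt) (n : ℕ) (Q : FC) (hQ : LR n Q)
    (hN : ND Q) (k : ℕ) (a : ℕ → ℕ) (hH : ∀ j ≤ k, Ab n Q k a j → Hv a j) (c c' : ℕ → ℕ)
    (hc : ∀ j ≤ k, ¬ Hv a j → c j = a j) (hr : Q.R k c c') :
    ∀ j ≤ k, ¬ Hv a j → c' j = a j := by
  classical
  intro j hj hnj
  have hpos := hQ.pos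
  have hr1 : Q.R k (fun t => c t + (if Hv a t then 2 * n else 0))
      (fun t => c' t + (if Hv a t then 2 * n else 0)) :=
    Q.add (fun t => if Hv a t then 2 * n else 0) hr
  have hkey := h4 n Q hQ hN k _ _ hr1 j hj
  have hnab : ¬ Ab n Q k (fun t => c t + (if Hv a t then 2 * n else 0)) j := by
    intro hab
    have h6 := (h1 n Q k (fun t => c t + (if Hv a t then 2 * n else 0)) j).2.1
      (fun t => if Hv a t then (n - 1) * (c t + 2 * n) + a t else 0) hab
    have hNq : Nq n k (fun t => (c t + (if Hv a t then 2 * n else 0)) +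
        (if Hv a t then (n - 1) * (c t + 2 * n) + a t else 0)) a := by
      intro t ht
      by_cases hv : Hv a t
      · right
        have he : (c t + (if Hv a t then 2 * n else 0)) +
            (if Hv a t then (n - 1) * (c t + 2 * n) + a t else 0) = n * (c t + 2 * n) + a t := by
          rw [if_pos hv, if_pos hv]
          obtain ⟨m, rfl⟩ : ∃ m, n = m + 1 := ⟨n - 1, by omega⟩
          simp only [Nat.add_sub_cancel]
          ring
        have h2n : 2 ≤ n * (c t + 2 * n) + a t := by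
          have h7 : 2 * n ≤ c t + 2 * n := Nat.le_add_left _ _
          have h8 : n * (2 * n) ≤ n * (c t + 2 * n) := Nat.mul_le_mul_left n h7
          have h9 : 1 * (2 * 1) ≤ n * (2 * n) := Nat.mul_le_mul hpos (Nat.mul_le_mul_left 2 hpos)
          omega
        refine ⟨⟨?_, t, le_refl t, ?_⟩, hv, ?_⟩
        · show (c t + (if Hv a t then 2 * n else 0)) +
            (if Hv a t then (n - 1) * (c t + 2 * n) + a t else 0) ≠ 0
          rw [he]
          omega
        · show 2 ≤ (c t + (if Hv a t then 2 * n else 0)) +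
            (if Hv a t then (n - 1) * (c t + 2 * n) + a t else 0)
          rw [he]
          exact h2n
        · show (c t + (if Hv a t then 2 * n else 0)) +
            (if Hv a t then (n - 1) * (c t + 2 * n) + a t else 0) ≡ a t [MOD n]
          rw [he]
          unfold Nat.ModEq
          rw [Nat.mul_add_mod]
      · left
        show (c t + (if Hv a t then 2 * n else 0)) +
            (if Hv a t then (n - 1) * (c t + 2 * n) + a t else 0) = a t
        rw [if_neg hv, if_neg hv, hc t ht hv]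
        rfl
    have hrel := (h3 n Q hQ k (fun t => (c t + (if Hv a t then 2 * n else 0)) +
        (if Hv a t then (n - 1) * (c t + 2 * n) + a t else 0))).2 a hNq
    have h10 := ((h1 n Q k (fun t => (c t + (if Hv a t then 2 * n else 0)) +
        (if Hv a t then (n - 1) * (c t + 2 * n) + a t else 0)) j).1 a hrel).1 h6
    exact hnj (hH j hj h10)
  have h11 := hkey hnab
  have h12 : c j + (if Hv a j then 2 * n else 0) = c' j + (if Hv a j then 2 * n else 0) := h11
  rw [if_neg hnj] at h12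
  have h13 := hc j hj hnj
  omega

theorem chain (h1 : TrnStmt) (h3 : AbsStmt) (h4 : KeyStmt) (n : ℕ) (R S : FC) (hR : LR n R)
    (hS : LR n S) (hNR : ND R) (hNS : ND S) (k : ℕ) (a : ℕ → ℕ)
    (hHR : ∀ j ≤ k, Ab n R k a j → Hv a j) (hHS : ∀ j ≤ k, Ab n S k a j → Hv a j) (c : ℕ → ℕ)
    (hc : Jn R S k a c) : ∀ j ≤ k, ¬ Hv a j → c j = a j := by
  unfold Jn at hc
  induction hc with
  | refl =>
    intro j _ _
    rfl
  | tail _ hs ih =>
    rcases hs with hs | hs
    · exact step h1 h3 h4 n R hR hNR k a hHR _ _ ih hs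
    · exact step h1 h3 h4 n S hS hNS k a hHS _ _ ih hs

theorem base (β : Bit) : β.i ≤ β.k ∧ ¬ Hv β.a β.i := by
  cases β with
  | E =>
    refine ⟨le_refl 1, ?_⟩
    rintro ⟨h, _⟩
    apply h
    simp [Bit.a, Bit.i, v2]
  | F =>
    refine ⟨by simp [Bit.i, Bit.k], ?_⟩
    rintro ⟨h, _⟩
    apply h
    simp [Bit.a, Bit.i, v3]
  | G =>
    refine ⟨by simp [Bit.i], ?_⟩
    rintro ⟨h, _⟩
    apply h
    simp [Bit.a, Bit.i, v2]
  | D l =>
    refine ⟨by simp [Bit.i, Bit.k], ?_⟩
    rintro ⟨_, p, hp, h⟩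
    have hp' : p ≤ l := hp
    have h' : 2 ≤ (if p ≤ l then 1 else 2) := h
    rw [if_pos hp'] at h'
    omega
  | J q =>
    refine ⟨le_refl _, ?_⟩
    rintro ⟨_, p, hp, h⟩
    have h' : 2 ≤ 1 := h
    omega

theorem jpr (h1 : TrnStmt) (_h2 : HvpStmt) (h3 : AbsStmt) (h4 : KeyStmt) (h5 : PrmStmt) :
    JprStmt := by
  intro n R S hR hS hNR hNS β hβ hJ
  by_contra hcon
  have hR' : ¬ Has n R β := fun h => hcon (Or.inl h)
  have hS' : ¬ Has n S β := fun h => hcon (Or.inr h)
  have hHR : ∀ j ≤ β.k, Ab n R β.k β.a j → Hv β.a j := by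
    intro j hj hab
    rcases h5 n R hR β hβ j hj hab with h | h
    · exact h
    · exact absurd h hR'
  have hHS : ∀ j ≤ β.k, Ab n S β.k β.a j → Hv β.a j := by
    intro j hj hab
    rcases h5 n S hS β hβ j hj hab with h | h
    · exact h
    · exact absurd h hS'
  obtain ⟨hi, hnv⟩ := base β
  have h6 := chain h1 h3 h4 n R S hR hS hNR hNS β.k β.a hHR hHS _ hJ β.i hi hnv
  have h7 : β.a β.i + (if β.i = β.i then 2 * n else 0) = β.a β.i := h6
  rw [if_pos rfl] at h7
  have hpos := hR.pos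
  omega

end Pool.Agent.MWL.H3
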